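import Pool.Agent.H91.DaugIdx

set_option autoImplicit false

open Metric H91.DaugIdx in
theorem Pool.Agent.Results.MP_4410f0_an.SmallDiam.result :
    ∃ (X : Type) (_ : NormedAddCommGroup X) (_ : NormedSpace ℝ X),
    CompleteSpace X ∧ Nontrivial X ∧ 1 ≤ T X ∧
      ∃ W : Set X, RelWO W ∧ W.Nonempty ∧ diam W < 2 :=
  main
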